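import Pool.Agent.ETCC.Struct
import Pool.Agent.ETCP.QStr
import Pool.Agent.ETCR.Fin
import Pool.Agent.ETCF.QS
import Pool.Agent.ETCG.Struct
import Pool.Agent.ETCH.Main

/-!
The elementary type conjecture for finite quaternionic structures: properties of a minimal
counterexample.
-/

namespace Pool.Agent.ETCG.Kept.CounterexampleTheorem

open QS

/-- `H` is closed under commuting: if `x ∈ H`, `x ≠ 1` and `q (x, z) = 0`, then `z ∈ H`. -/
def Closed (S : QStruct) (H : Subgroup S.G) : Prop :=
  ∀ x ∈ H, x ≠ 1 → ∀ z, S.q x z = S.zero → z ∈ H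

/-- `S` has a proper closed subgroup containing elements `p ≠ 1`, `y ≠ 1` with `q (p, y) = 0`. -/
def HasClosed (S : QStruct) : Prop :=
  ∃ H : Subgroup S.G, H ≠ ⊤ ∧ Closed S H ∧ ∃ p ∈ H, p ≠ 1 ∧ ∃ y, y ≠ 1 ∧ S.q p y = S.zero

/-- Some value group `V_p = {x | q (p, x) = 0}`, `p ≠ 1`, is commutative: `q = 0` on `V_p`. -/
def HasComm (S : QStruct) : Prop :=
  ∃ p : S.G, p ≠ 1 ∧ ∀ g h, S.q p g = S.zero → S.q p h = S.zero → S.q g h = S.zero

/-- For some `x` the set `Q_x = {q (x, y)}` has exactly two elements (`V_x` has index 2). -/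
def HasRankOne (S : QStruct) : Prop :=
  ∃ x : S.G, Nat.card {β // ∃ y, S.q x y = β} = 2

/-- `S` is isomorphic to a group extension `T[x]`. -/
def IsExt (S : QStruct) : Prop := ∃ T : QStruct, Iso S (ext T)

/-- `S` is isomorphic to a direct product of two nontrivial structures. -/
def IsProd (S : QStruct) : Prop :=
  ∃ A B : QStruct, A.neg = 1 ∧ B.neg = 1 ∧ 2 ≤ Nat.card A.G ∧ 2 ≤ Nat.card B.G ∧ Iso (prod A B) S

theorem iso_zero {S T : QStruct} {φ : S.G ≃* T.G}
    (h : ∀ a b c d, S.q a b = S.q c d ↔ T.q (φ a) (φ b) = T.q (φ c) (φ d)) (a b : S.G) :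
    S.q a b = S.zero ↔ T.q (φ a) (φ b) = T.zero := by
  have h1 := h a b 1 1
  rwa [S.q_one, map_one, T.q_one] at h1

theorem forward (S : QStruct) [Finite S.G] (h : HasClosed S) : IsExt S := by
  obtain ⟨H, h1, h2, h3⟩ := h
  obtain ⟨z, hz⟩ := ETCC.exists_bir h1 h2 h3
  exact ETCC.ext_of_bir hz

theorem card_ext (S T : QStruct) (h : Iso S (ext T)) : 2 * Nat.card T.G = Nat.card S.G := by
  obtain ⟨φ, -, -⟩ := h
  rw [Nat.card_congr φ.toEquiv]
  show _ = Nat.card (T.G × Multiplicative (ZMod 2))
  rw [Nat.card_prod, Nat.card_eq_fintype_card (α := Multiplicative (ZMod 2)),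
    Fintype.card_multiplicative, ZMod.card, mul_comm]

theorem elem_of_ext (S T : QStruct) (hi : Iso S (ext T)) (h1 : ElemType T) : ElemType S := by
  obtain ⟨φ, h2, h3⟩ := hi
  refine ElemType.iso (ext T) S ⟨φ.symm, ?_, ?_⟩ (ElemType.ext T h1)
  · rw [← h2, MulEquiv.symm_apply_apply]
  · intro a b c d
    have h4 := h3 (φ.symm a) (φ.symm b) (φ.symm c) (φ.symm d)
    simp only [MulEquiv.apply_symm_apply] at h4
    exact h4.symm

theorem comm (S : QStruct) [Finite S.G] (hneg : S.neg = 1) (h : HasComm S) :
    IsExt S ∨ IsProd S := by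
  obtain ⟨p, hp, h1⟩ := h
  exact ETCF.comm_case S hneg hp h1

theorem rankOne (S : QStruct) [Finite S.G] (hneg : S.neg = 1)
    (hT : ∀ T : QStruct, Finite T.G → T.neg = 1 → Nat.card T.G < Nat.card S.G → ElemType T)
    (h : HasRankOne S) : IsExt S ∨ IsProd S ∨ ElemType S := by
  obtain ⟨x, hx⟩ := h
  obtain ⟨a, b, hab, hu⟩ := Nat.card_eq_two_iff.1 hx
  have hall : ∀ β : {β // ∃ y, S.q x y = β}, β = a ∨ β = b := by
    intro β
    have : β ∈ ({a, b} : Set {β // ∃ y, S.q x y = β}) := by rw [hu]; trivial
    simpa using this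
  -- the nonzero value
  obtain ⟨c, hc0, hc1, y, hy⟩ : ∃ c : S.Q, c ≠ S.zero ∧
      (∀ y, S.q x y = S.zero ∨ S.q x y = c) ∧ ∃ y, S.q x y = c := by
    have hz : ∃ y, S.q x y = S.zero := ⟨1, S.q_one x⟩
    rcases hall ⟨S.zero, hz⟩ with h0 | h0
    · refine ⟨b, ?_, ?_, b.2⟩
      · intro e
        apply hab
        rw [← h0]
        exact Subtype.ext e.symm
      · intro y
        rcases hall ⟨S.q x y, y, rfl⟩ with h1 | h1
        · left
          rw [← h0] at h1
          exact congrArg Subtype.val h1
        · right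
          exact congrArg Subtype.val h1
    · refine ⟨a, ?_, ?_, a.2⟩
      · intro e
        apply hab
        rw [← h0]
        exact Subtype.ext e
      · intro y
        rcases hall ⟨S.q x y, y, rfl⟩ with h1 | h1
        · right
          exact congrArg Subtype.val h1
        · left
          rw [← h0] at h1
          exact congrArg Subtype.val h1
  rcases ETCR.rank_one S hneg hT hc0 hc1 ⟨y, hy⟩ with h | h | ⟨hnd, h2⟩
  · exact Or.inl h
  · exact Or.inr (Or.inl h)
  by_cases h8 : 8 ≤ Nat.card S.G
  · exact Or.inr (Or.inr (ElemType.loc S inferInstance h8 hnd h2))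
  obtain ⟨n, hn⟩ := ETCC.card_V_pow (S := S) ⊤
  have hn' : Nat.card S.G = 2 ^ n := by
    rw [← hn]
    exact (Subgroup.card_top).symm
  have hx1 : x ≠ 1 := by
    rintro rfl
    apply hc0
    rw [← hy, S.qs2, S.q_one]
  have h4 : Nat.card S.G ≤ 4 := by
    rw [hn'] at h8 ⊢
    have : n < 3 := by
      by_contra hno
      apply h8
      calc 8 = 2 ^ 3 := by norm_num
        _ ≤ 2 ^ n := Nat.pow_le_pow_right (by norm_num) (by omega)
    calc 2 ^ n ≤ 2 ^ 2 := Nat.pow_le_pow_right (by norm_num) (by omega)
      _ = 4 := by norm_num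
  rcases ETCP.small S hneg hx1 ((Finite.card_subtype_le _).trans h4) with h | h
  · exact Or.inl h
  · exact Or.inr (Or.inl h)

theorem ext_neg (S T : QStruct) (hneg : S.neg = 1) (h : Iso S (ext T)) : T.neg = 1 := by
  obtain ⟨φ, h1, -⟩ := h
  rw [hneg, map_one] at h1
  exact (congrArg Prod.fst h1).symm

/-- if all smaller finite structures with `-1 = 1` are of elementary type and `S` is a group extension or
a product, then `S` is of elementary type -/
theorem elem (S : QStruct) [Finite S.G] (hneg : S.neg = 1)
    (hT : ∀ T : QStruct, Finite T.G → T.neg = 1 → Nat.card T.G < Nat.card S.G → ElemType T)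
    (h : IsExt S ∨ IsProd S) : ElemType S := by
  have hpos : 0 < Nat.card S.G := Nat.card_pos
  rcases h with ⟨T, hi⟩ | ⟨A, B, hA, hB, hA2, hB2, hi⟩
  · have hc := card_ext S T hi
    have hf : Finite T.G := Nat.finite_of_card_ne_zero (by omega)
    exact elem_of_ext S T hi (hT T hf (ext_neg S T hneg hi) (by omega))
  · have hc : Nat.card A.G * Nat.card B.G = Nat.card S.G := by
      obtain ⟨φ, -, -⟩ := hi
      rw [← Nat.card_congr φ.toEquiv]
      show _ = Nat.card (A.G × B.G)
      rw [Nat.card_prod]
    have hfA : Finite A.G := Nat.finite_of_card_ne_zero (by omega)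
    have hfB : Finite B.G := Nat.finite_of_card_ne_zero (by omega)
    refine ElemType.iso _ S hi (ElemType.prod A B (hT A hfA hA ?_) (hT B hfB hB ?_))
    · nlinarith
    · nlinarith

/-- an element of the radical -/
theorem radical (S : QStruct) [Finite S.G] (hneg : S.neg = 1) {r : S.G} (hr : r ≠ 1)
    (h : ∀ y, S.q r y = S.zero) : IsExt S ∨ IsProd S := by
  by_cases hg : ∃ g : S.G, g ≠ 1 ∧ g ≠ r
  · obtain ⟨g, hg1, hg2⟩ := hg
    exact Or.inr (ETCP.decomp_of_degenerate S hneg hr h hg1 hg2)
  · push Not at hg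
    have h4 : Nat.card {x // S.q r x = S.zero} ≤ 4 := by
      have h2 : Nat.card S.G ≤ 2 := by
        classical
        have hs : Function.Surjective (fun b : Bool => if b then (1 : S.G) else r) := by
          intro g
          by_cases h1 : g = 1
          · exact ⟨true, by simp [h1]⟩
          · exact ⟨false, by simp [hg g h1]⟩
        calc Nat.card S.G ≤ Nat.card Bool := Nat.card_le_card_of_surjective _ hs
          _ = 2 := by simp
      exact (Finite.card_subtype_le _).trans (by omega)
    rcases ETCP.small S hneg hr h4 with h | h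
    · exact Or.inl h
    · exact Or.inr h

/-- the two values of `Q_x` -/
theorem two_values (S : QStruct) {x : S.G} (hx : Nat.card {β // ∃ y, S.q x y = β} = 2) :
    ∃ c : S.Q, c ≠ S.zero ∧ (∀ y, S.q x y = S.zero ∨ S.q x y = c) ∧ ∃ y, S.q x y = c := by
  obtain ⟨a, b, hab, hu⟩ := Nat.card_eq_two_iff.1 hx
  have hall : ∀ β : {β // ∃ y, S.q x y = β}, β = a ∨ β = b := by
    intro β
    have : β ∈ ({a, b} : Set {β // ∃ y, S.q x y = β}) := by rw [hu]; trivial
    simpa using this
  have hz : ∃ y, S.q x y = S.zero := ⟨1, S.q_one x⟩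
  rcases hall ⟨S.zero, hz⟩ with h0 | h0
  · refine ⟨b, ?_, ?_, b.2⟩
    · intro e
      apply hab
      rw [← h0]
      exact Subtype.ext e.symm
    · intro y
      rcases hall ⟨S.q x y, y, rfl⟩ with h1 | h1
      · left
        rw [← h0] at h1
        exact congrArg Subtype.val h1
      · right
        exact congrArg Subtype.val h1
  · refine ⟨a, ?_, ?_, a.2⟩
    · intro e
      apply hab
      rw [← h0]
      exact Subtype.ext e
    · intro y
      rcases hall ⟨S.q x y, y, rfl⟩ with h1 | h1
      · right
        exact congrArg Subtype.val h1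
      · left
        rw [← h0] at h1
        exact congrArg Subtype.val h1

/-- an element with at most two values, all smaller structures of elementary type -/
theorem smallQ (S : QStruct) [Finite S.G]
    (hT : ∀ T : QStruct, Finite T.G → Nat.card T.G < Nat.card S.G → ElemType T)
    {p : S.G} (hp : p ≠ 1) (hno : ¬ 2 < Nat.card {β // ∃ y, S.q p y = β}) : ElemType S := by
  have hfin : Finite {β // ∃ y, S.q p y = β} :=
    Set.finite_coe_iff.2 (Set.finite_range (fun y => S.q p y))
  have hne : Nonempty {β // ∃ y, S.q p y = β} := ⟨⟨S.q p 1, 1, rfl⟩⟩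
  have hpos : 0 < Nat.card {β // ∃ y, S.q p y = β} := Nat.card_pos
  have h12 : Nat.card {β // ∃ y, S.q p y = β} = 1 ∨ Nat.card {β // ∃ y, S.q p y = β} = 2 := by
    omega
  rcases h12 with h1 | h2
  · have h3 : Subsingleton {β // ∃ y, S.q p y = β} := (Nat.card_eq_one_iff_unique.1 h1).1
    apply ETCMR.elem_of_rad S hT hp
    intro y
    exact congrArg Subtype.val (h3.elim ⟨S.q p y, y, rfl⟩ ⟨S.zero, 1, S.q_one p⟩)
  · obtain ⟨c, hc0, hc1, hc2⟩ := two_values S h2
    exact ETCMR.rank_one S hT hc0 hc1 hc2

/-- Let `S` be a finite quaternionic structure which is not of elementary type, while all smaller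
finite structures (those with `-1 = 1`, if `-1 = 1` in `S`) are of elementary type.  Then `S` has no
proper subgroup closed under commuting and containing a commuting pair; for all `p ≠ 1` the set
`Q_p` has more than two elements; for all `a ≠ 1, -1` some `b ≠ 1, a` has `q (-a, b) = 0`; and for
all `p ≠ 1` with `q (p, -1) = 0` the value group `V_p` is not commutative. -/
theorem result (S : QStruct) (hf : Finite S.G) (hE : ¬ ElemType S)
    (hT : ∀ T : QStruct, Finite T.G → (S.neg = 1 → T.neg = 1) → Nat.card T.G < Nat.card S.G →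
      ElemType T) :
    ¬ HasClosed S ∧
    (∀ p : S.G, p ≠ 1 → 2 < Nat.card {β // ∃ y, S.q p y = β}) ∧
    (∀ a : S.G, a ≠ 1 → a ≠ S.neg → ∃ b, b ≠ 1 ∧ b ≠ a ∧ S.q (S.neg * a) b = S.zero) ∧
    (∀ p : S.G, p ≠ 1 → S.q p S.neg = S.zero →
      ∃ g h : S.G, S.q p g = S.zero ∧ S.q p h = S.zero ∧ S.q g h ≠ S.zero) := by
  refine ⟨fun h => ?_, fun p hp => ?_, fun a h1 h2 => ?_, fun p hp hpe => ?_⟩
  · obtain ⟨T, hi⟩ := forward S h
    have hc := card_ext S T hi
    have hpos : 0 < Nat.card S.G := Nat.card_pos
    have hfT : Finite T.G := Nat.finite_of_card_ne_zero (by omega)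
    exact hE (elem_of_ext S T hi (hT T hfT (fun hneg => ext_neg S T hneg hi) (by omega)))
  · by_contra hno
    by_cases hneg : S.neg = 1
    · have hT' : ∀ T : QStruct, Finite T.G → T.neg = 1 → Nat.card T.G < Nat.card S.G →
          ElemType T := fun T h1 h2 h3 => hT T h1 (fun _ => h2) h3
      have hfin : Finite {β // ∃ y, S.q p y = β} :=
        Set.finite_coe_iff.2 (Set.finite_range (fun y => S.q p y))
      have hne : Nonempty {β // ∃ y, S.q p y = β} := ⟨⟨S.q p 1, 1, rfl⟩⟩
      have hpos : 0 < Nat.card {β // ∃ y, S.q p y = β} := Nat.card_pos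
      have h12 : Nat.card {β // ∃ y, S.q p y = β} = 1 ∨ Nat.card {β // ∃ y, S.q p y = β} = 2 := by
        omega
      rcases h12 with h1 | h2
      · have h3 : Subsingleton {β // ∃ y, S.q p y = β} := (Nat.card_eq_one_iff_unique.1 h1).1
        apply hE
        apply elem S hneg hT'
        apply radical S hneg hp
        intro y
        exact congrArg Subtype.val (h3.elim ⟨S.q p y, y, rfl⟩ ⟨S.zero, 1, S.q_one p⟩)
      · rcases rankOne S hneg hT' ⟨p, h2⟩ with h | h | h
        · exact hE (elem S hneg hT' (Or.inl h))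
        · exact hE (elem S hneg hT' (Or.inr h))
        · exact hE h
    · exact hE (smallQ S (fun T h1 h2 => hT T h1 (fun h => absurd h hneg) h2) hp hno)
  · by_contra hno
    push Not at hno
    by_cases hneg : S.neg = 1
    · -- the element `a` is birigid
      have hb : ETCC.Bir S a := by
        have key : ETCC.Rig S a := by
          intro u hu
          by_cases hu1 : u = 1
          · exact Or.inl hu1
          · right
            by_contra hne
            rw [hneg, one_mul] at hne
            exact hno u hu1 hne (by rw [hneg, one_mul]; exact hu)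
        refine ⟨h1, h2, key, ?_⟩
        have : S.neg * a = a := by rw [hneg, one_mul]
        rw [this]; exact key
      obtain ⟨T, hi⟩ := ETCC.ext_of_bir hb
      have hc := card_ext S T hi
      have hpos : 0 < Nat.card S.G := Nat.card_pos
      have hfT : Finite T.G := Nat.finite_of_card_ne_zero (by omega)
      exact hE (elem_of_ext S T hi (hT T hfT (fun hneg => ext_neg S T hneg hi) (by omega)))
    · apply hE
      apply ETCG.elem_of_rigid S (fun T h1 h2 => hT T h1 (fun h => absurd h hneg) h2) h1 h2
      intro b hb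
      by_contra hcon
      push Not at hcon
      exact hno b hcon.1 hcon.2 hb
  · by_contra hno
    push Not at hno
    by_cases hneg : S.neg = 1
    · exact hE (elem S hneg (fun T h1 h2 h3 => hT T h1 (fun _ => h2) h3)
        (comm S hneg ⟨p, hp, fun g h hg hh => hno g h hg hh⟩))
    · exact hE (ETCH.elem_of_comm S (fun T h1 h2 => hT T h1 (fun h => absurd h hneg) h2) hp hpe
        hno)

end Pool.Agent.ETCG.Kept.CounterexampleTheorem

/-!
Claim text of the former hand-in (removed from Results because of the limit of 4 hand-ins):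
Proves: Let S=(G,-1,q) be a finite quaternionic structure, not of elementary type, all smaller finite ones (if -1=1 in S: all with -1=1) being of elementary type. Then (1) no subgroup H≠G is closed (1≠x∈H, q(x,z)=0 ⇒ z∈H) and has p∈H, y∈G, both ≠1, with q(p,y)=0; (2) |Q_p|>2 for all p≠1, Q_p={q(p,y): y∈G}; (3) no a≠1,-1 is rigid, i.e. q(-a,b)=0 for some b≠1,a; (4) no V_p={x: q(p,x)=0}, p≠1, containing -1 is commutative: some g,h∈V_p have q(g,h)≠0.
Definitions: QStruct: quaternionic structure (QS1-QS4, surjective q, G abelian, a*a=1; neg is -1). prod, ext: product and group extension as in the problem; Iso: group isomorphism fixing -1 with q(a,b)=q(c,d) iff q(φa,φb)=q(φc,φd). ElemType: least class containing L_0, L_{1,0}, L_{1,1}, L_1, local types, closed under prod, ext, Iso. HasClosed: H, p, y as in (1) exist, Closed: H is closed.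
Relation: Partial step on Q1: structure of a minimal counterexample, for every -1 and every order of G. Found by our team (helpers 98, 5, 97, 82, 74, 28, 50, 29, 90, 99, 13). Known to us: a birigid element gives a group extension (Berman, Carson-Marshall); in (3) only one of D<1,a>, D<1,-a> is small. Nearest earlier work we recall: Marshall's pythagorean case for (3), Fitzgerald-Yucas, Local factors of finitely generated Witt rings I, II for (2).
-/
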