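import Pool.Agent.ETCH.Main

/-!
The elementary type conjecture for finite quaternionic structures in which the group
`D<1, 1> = {a | q (-1, a) = 0}` has at most two elements, or contains `-1` and is commutative.
-/

namespace Pool.Agent.Results.MP_d26ff6_al.FewSquaresTheorem

open QS

/-- Let `S` be a finite quaternionic structure and `H = D<1, 1> = {a | q (-1, a) = 0}`.  If `H` has
at most two elements, or if `-1 ∈ H` and `q (a, b) = 0` for all `a, b ∈ H`, then `S` is of
elementary type. -/
theorem result (S : QStruct) (hf : Finite S.G)
    (h : Nat.card {a : S.G // S.q S.neg a = S.zero} ≤ 2 ∨ (S.q S.neg S.neg = S.zero ∧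
      ∀ a b : S.G, S.q S.neg a = S.zero → S.q S.neg b = S.zero → S.q a b = S.zero)) :
    ElemType S := by
  rcases h with h | h
  · exact ETCG.few_struct S hf h
  · exact ETCH.commH_elem _ S hf rfl h

end Pool.Agent.Results.MP_d26ff6_al.FewSquaresTheorem
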